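import Pool.Agent.V5helper30.W3.Fin
import Pool.Agent.V5helper9.W3.ORB
import Pool.Agent.V5helper77.W3.P1

/-!
# The weak Lefschetz property of `S / (x ^ d, y ^ d, z ^ d) ^ k` in three variables

It fails for many `k < d` (the smallest case is `(d, k) = (9, 3)`): the multiplication by a general linear form is, after a
change of scale, equivariant for the symmetric group `S_3`, and the multiplicities of the trivial and of the sign
representation in two consecutive degrees move in opposite directions.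
-/

set_option autoImplicit false

open MvPolynomial

namespace Pool.Agent.Results.MP_8b82cd_ag.ThreeVariables

/-- The ideal `(x_1 ^ d, …, x_n ^ d) ^ k` of `K[x_1, …, x_n]`. -/
noncomputable def powId (K : Type*) [Field K] (n d k : ℕ) : Ideal (MvPolynomial (Fin n) K) :=
  (Ideal.span (Set.range fun c : Fin n => (X c : MvPolynomial (Fin n) K) ^ d)) ^ k

/-- Multiplication by `L` from degree `i` to degree `i + 1` of the graded algebra `S / J` is injective or surjective. -/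
def MaxRank {K : Type*} [Field K] {n : ℕ} (J : Ideal (MvPolynomial (Fin n) K)) (L : MvPolynomial (Fin n) K)
    (i : ℕ) : Prop :=
  (∀ f : MvPolynomial (Fin n) K, f.IsHomogeneous i → L * f ∈ J → f ∈ J) ∨
  (∀ g : MvPolynomial (Fin n) K, g.IsHomogeneous (i + 1) →
    ∃ f : MvPolynomial (Fin n) K, f.IsHomogeneous i ∧ g - L * f ∈ J)

/-- The weak Lefschetz property of `S / J`: for a generic linear form, that is for all linear forms `∑ a_c x_c` whose
coefficient vector `a` lies outside the zero set of some nonzero polynomial `P`, all multiplications by `ℓ` have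
maximal rank. -/
def GenericWLP {K : Type*} [Field K] {n : ℕ} (J : Ideal (MvPolynomial (Fin n) K)) : Prop :=
  ∃ P : MvPolynomial (Fin n) K, P ≠ 0 ∧ ∀ a : Fin n → K, eval a P ≠ 0 → ∀ i : ℕ, MaxRank J (∑ c, C (a c) * X c) i

/-- The weak Lefschetz property of `S / J`, weaker looking form: some linear form works. -/
def SomeWLP {K : Type*} [Field K] {n : ℕ} (J : Ideal (MvPolynomial (Fin n) K)) : Prop :=
  ∃ L : MvPolynomial (Fin n) K, L.IsHomogeneous 1 ∧ ∀ i : ℕ, MaxRank J L i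

/-- Let `T = S / (x ^ d, y ^ d, z ^ d) ^ k`, three variables, over an infinite field.
(1) The weak Lefschetz property (in both forms) fails if `k ≥ 3` and there is an odd `t ≥ 3` with
`|2 d - t (k + 3)| ≤ 2`, where for `k = 3` and `k = 7` we require `2 d = t (k + 3)`.
(2) For every `d ≥ 9` it fails for some `k` with `3 ≤ k ≤ 2 d / 3`.
(3) For every `k ≥ 3` it fails for infinitely many `d > k`.
(4) In characteristic `0` it holds if `d ≤ 2`, and if `d - 3 ≤ k ≤ d - 1`. -/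
theorem result {K : Type*} [Field K] [Infinite K] :
    (∀ d k t : ℕ, Odd t → 3 ≤ t → 3 ≤ k → |(2 * d : ℤ) - t * (k + 3)| ≤ 2 →
      ((k = 3 ∨ k = 7) → 2 * d = t * (k + 3)) →
      ¬ GenericWLP (powId K 3 d k) ∧ ¬ SomeWLP (powId K 3 d k)) ∧
    (∀ d : ℕ, 9 ≤ d → ∃ k : ℕ, 3 ≤ k ∧ 3 * k ≤ 2 * d ∧
      ¬ GenericWLP (powId K 3 d k) ∧ ¬ SomeWLP (powId K 3 d k)) ∧
    (∀ k : ℕ, 3 ≤ k → ∀ D : ℕ, ∃ d : ℕ, D < d ∧ k < d ∧
      ¬ GenericWLP (powId K 3 d k) ∧ ¬ SomeWLP (powId K 3 d k)) ∧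
    (CharZero K → ∀ d k : ℕ, 1 ≤ d → 1 ≤ k → (d ≤ 2 ∨ (d ≤ k + 3 ∧ k < d)) →
      GenericWLP (powId K 3 d k) ∧ SomeWLP (powId K 3 d k)) := by
  have hgi : ∀ d k : ℕ, 1 ≤ d → (GenericWLP (powId K 3 d k) ↔ Pool.Agent.V5helper30.WL.Tst K 3 d k) :=
    fun d k hd => Pool.Agent.V5helper30.WL.generic_iff hd
  have hsi : ∀ d k : ℕ, 1 ≤ d → (SomeWLP (powId K 3 d k) ↔ Pool.Agent.V5helper30.WL.Tst K 3 d k) :=
    fun d k hd => Pool.Agent.V5helper30.WL.some_iff hd
  have hneg : ∀ d k : ℕ, 1 ≤ d → ¬ Pool.Agent.V5helper30.WL.Tst K 3 d k →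
      ¬ GenericWLP (powId K 3 d k) ∧ ¬ SomeWLP (powId K 3 d k) :=
    fun d k hd h => ⟨fun h1 => h ((hgi d k hd).1 h1), fun h1 => h ((hsi d k hd).1 h1)⟩
  have horb := Pool.Agent.V5helper9.W3.t_ORB
  refine ⟨?_, ?_, ?_, ?_⟩
  · intro d k t ht ht3 hk h h37
    refine hneg d k ?_ (Pool.Agent.V5helper30.W3.neg horb ht ht3 hk h h37)
    rw [abs_le] at h
    by_contra hcon
    have hd0 : d = 0 := by omega
    subst hd0
    have h1 : 3 * 6 ≤ t * (k + 3) := Nat.mul_le_mul ht3 (by omega)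
    have h2 : ((3 * 6 : ℕ) : ℤ) ≤ t * (k + 3) := by exact_mod_cast h1
    push_cast at h2 h
    omega
  · intro d hd
    obtain ⟨k, h1, h2, h3⟩ := Pool.Agent.V5helper30.W3.neg_d (K := K) horb hd
    exact ⟨k, h1, h2, hneg d k (by omega) h3⟩
  · intro k hk D
    obtain ⟨d, h1, h2, h3⟩ := Pool.Agent.V5helper30.W3.neg_k (K := K) horb hk D
    exact ⟨d, h1, h2, hneg d k (by omega) h3⟩
  · intro hK d k hd hk h
    have hT := Pool.Agent.V5helper30.W3.pos_all (Pool.Agent.V5helper77.W3.t_P1 K) hd hk h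
    exact ⟨(hgi d k hd).2 hT, (hsi d k hd).2 hT⟩

end Pool.Agent.Results.MP_8b82cd_ag.ThreeVariables
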