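import Pool.Agent.V5helper30.WL.Fin
import Pool.Agent.V5helper48.WL.POS23
import Pool.Agent.V5helper48.WL.POS32
import Pool.Agent.V5helper48.WL.POS42

/-!
# The weak Lefschetz property of `S / (x_1 ^ d, …, x_n ^ d) ^ k` in at least four variables

For every `n ≥ 4` the weak Lefschetz property fails for all but finitely many `(d, k)` with `d, k ≥ 2`, with explicit
linear bounds, and it is completely determined for `n = 4`.
-/

set_option autoImplicit false

open MvPolynomial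

namespace Pool.Agent.Results.MP_8b82cd_ag.WeakLefschetz

/-- The ideal `(x_1 ^ d, …, x_n ^ d) ^ k` of `K[x_1, …, x_n]`. -/
noncomputable def powId (K : Type*) [Field K] (n d k : ℕ) : Ideal (MvPolynomial (Fin n) K) :=
  (Ideal.span (Set.range fun c : Fin n => (X c : MvPolynomial (Fin n) K) ^ d)) ^ k

/-- Multiplication by `L` from degree `i` to degree `i + 1` of the graded algebra `S / J` is injective or surjective. -/
def MaxRank {K : Type*} [Field K] {n : ℕ} (J : Ideal (MvPolynomial (Fin n) K)) (L : MvPolynomial (Fin n) K)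
    (i : ℕ) : Prop :=
  (∀ f : MvPolynomial (Fin n) K, f.IsHomogeneous i → L * f ∈ J → f ∈ J) ∨
  (∀ g : MvPolynomial (Fin n) K, g.IsHomogeneous (i + 1) →
    ∃ f : MvPolynomial (Fin n) K, f.IsHomogeneous i ∧ g - L * f ∈ J)

/-- The weak Lefschetz property of `S / J`: for a generic linear form, that is for all linear forms `∑ a_c x_c` whose
coefficient vector `a` lies outside the zero set of some nonzero polynomial `P`, all multiplications by `ℓ` have
maximal rank. -/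
def GenericWLP {K : Type*} [Field K] {n : ℕ} (J : Ideal (MvPolynomial (Fin n) K)) : Prop :=
  ∃ P : MvPolynomial (Fin n) K, P ≠ 0 ∧ ∀ a : Fin n → K, eval a P ≠ 0 → ∀ i : ℕ, MaxRank J (∑ c, C (a c) * X c) i

/-- The weak Lefschetz property of `S / J`, weaker looking form: some linear form works. -/
def SomeWLP {K : Type*} [Field K] {n : ℕ} (J : Ideal (MvPolynomial (Fin n) K)) : Prop :=
  ∃ L : MvPolynomial (Fin n) K, L.IsHomogeneous 1 ∧ ∀ i : ℕ, MaxRank J L i

/-- The Hilbert function of `S / (x_1 ^ d, …, x_n ^ d) ^ k`: the number of monomials `x ^ m` of degree `i` which are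
not in the ideal, that is with `∑ j, ⌊m_j / d⌋ < k`. -/
def hilb (n d k i : ℕ) : ℕ :=
  (((Finset.univ : Finset (Fin n)).finsuppAntidiag i).filter fun m => ∑ j, m j / d < k).card

/-- Let `T = S / (x_1 ^ d, …, x_n ^ d) ^ k`, over a field of characteristic `0`.
(1) For `n ≥ 4`, `d ≥ 2`, the weak Lefschetz property (in both forms) fails if the Hilbert function does not increase from
degree `D - 1` to degree `D = d k - 1 + ⌊(n - 2)(d - 1) / 2⌋`.
(2) For `n ≥ 4` and `d, k ≥ 2` it fails if `n (d - 1)` is even and `(k - 1) ⌊d / 2⌋ ≥ 2 (n - 1)`; if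
`(k - 1)(d - 2) ≥ 8 (n - 1)`; if `d = 2`, `n` is odd and `k ≥ n + 20`.
(3) So for `n ≥ 4` and `d, k ≥ 2` it implies `d ≤ 8 n - 7` and `k ≤ 8 n - 8`: finitely many `(d, k)` for every `n`.
(4) For `n = 4` it holds exactly if `d = 1`, `k = 1`, or `(d, k)` is `(2, 2)`, `(2, 3)`, `(3, 2)` or `(4, 2)`. -/
theorem result {K : Type*} [Field K] [CharZero K] :
    (∀ n d k : ℕ, 4 ≤ n → 2 ≤ d → 1 ≤ k →
      hilb n d k (d * k - 1 + (n - 2) * (d - 1) / 2) ≤ hilb n d k (d * k - 1 + (n - 2) * (d - 1) / 2 - 1) →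
      ¬ GenericWLP (powId K n d k) ∧ ¬ SomeWLP (powId K n d k)) ∧
    (∀ n d k : ℕ, 4 ≤ n → 2 ≤ d → 2 ≤ k →
      ((Even (n * (d - 1)) ∧ 2 * (n - 1) ≤ (k - 1) * (d / 2)) ∨ 8 * (n - 1) ≤ (k - 1) * (d - 2) ∨
        (d = 2 ∧ Odd n ∧ n + 20 ≤ k)) →
      ¬ GenericWLP (powId K n d k) ∧ ¬ SomeWLP (powId K n d k)) ∧
    (∀ n d k : ℕ, 4 ≤ n → 2 ≤ d → 2 ≤ k → (GenericWLP (powId K n d k) ∨ SomeWLP (powId K n d k)) →
      d ≤ 8 * n - 7 ∧ k ≤ 8 * n - 8) ∧
    (∀ d k : ℕ, 1 ≤ d → 1 ≤ k →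
      (GenericWLP (powId K 4 d k) ↔
        (d = 1 ∨ k = 1 ∨ (d = 2 ∧ k = 2) ∨ (d = 2 ∧ k = 3) ∨ (d = 3 ∧ k = 2) ∨ (d = 4 ∧ k = 2))) ∧
      (SomeWLP (powId K 4 d k) ↔
        (d = 1 ∨ k = 1 ∨ (d = 2 ∧ k = 2) ∨ (d = 2 ∧ k = 3) ∨ (d = 3 ∧ k = 2) ∨ (d = 4 ∧ k = 2)))) := by
  have hfex := Pool.Agent.V5helper6.WL.fex K
  have hcard := Pool.Agent.V5helper53.WL.t_CARD
  have hgi : ∀ n d k : ℕ, 1 ≤ d → (GenericWLP (powId K n d k) ↔ Pool.Agent.V5helper30.WL.Tst K n d k) :=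
    fun n d k hd => Pool.Agent.V5helper30.WL.generic_iff hd
  have hsi : ∀ n d k : ℕ, 1 ≤ d → (SomeWLP (powId K n d k) ↔ Pool.Agent.V5helper30.WL.Tst K n d k) :=
    fun n d k hd => Pool.Agent.V5helper30.WL.some_iff hd
  have hneg : ∀ n d k : ℕ, 1 ≤ d → ¬ Pool.Agent.V5helper30.WL.Tst K n d k →
      ¬ GenericWLP (powId K n d k) ∧ ¬ SomeWLP (powId K n d k) :=
    fun n d k hd h => ⟨fun h1 => h ((hgi n d k hd).1 h1), fun h1 => h ((hsi n d k hd).1 h1)⟩
  refine ⟨?_, ?_, ?_, ?_⟩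
  · intro n d k hn hd hk h
    exact hneg n d k (by omega) (Pool.Agent.V5helper30.WL.neg_num hfex hn hd hk h)
  · rintro n d k hn hd hk (⟨he, h⟩ | h | ⟨rfl, ho, h⟩)
    · exact hneg n d k (by omega) (Pool.Agent.V5helper30.WL.neg_even hfex hcard hn hd hk he h)
    · exact hneg n d k (by omega) (Pool.Agent.V5helper30.WL.neg_odd hfex hcard hn hd hk h)
    · exact hneg n 2 k (by omega) (Pool.Agent.V5helper30.WL.neg_bin hn ho h)
  · intro n d k hn hd hk h
    have hT : Pool.Agent.V5helper30.WL.Tst K n d k := by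
      rcases h with h | h
      · exact (hgi n d k (by omega)).1 h
      · exact (hsi n d k (by omega)).1 h
    constructor
    · by_contra hc
      refine Pool.Agent.V5helper30.WL.neg_odd hfex hcard hn hd hk ?_ hT
      calc 8 * (n - 1) ≤ 1 * (d - 2) := by omega
        _ ≤ (k - 1) * (d - 2) := Nat.mul_le_mul_right _ (by omega)
    · by_contra hc
      exact Pool.Agent.V5helper30.WL.neg_large hn hd (by omega) hT
  · intro d k hd hk
    have h4 := Pool.Agent.V5helper30.WL.four hfex hcard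
      (Pool.Agent.V5helper95.WL.sp Pool.Agent.V5helper30.WL.dual hcard) (Pool.Agent.V5helper56.WL.two K)
      (Pool.Agent.V5helper48.WL.pos23 K) (Pool.Agent.V5helper48.WL.pos32 K) (Pool.Agent.V5helper48.WL.pos42 K) hd hk
    exact ⟨(hgi 4 d k hd).trans h4, (hsi 4 d k hd).trans h4⟩

end Pool.Agent.Results.MP_8b82cd_ag.WeakLefschetz
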